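import Pool.Agent.D0H73.OP.Stm

/-!
# Project OP, module LAST
-/

set_option autoImplicit false

open Finset
open scoped BigOperators

namespace Pool.Agent.D0H10.OP

open Pool.Agent.D0H73.OP
open Pool.Agent.V1192.UOD (V)

theorem cis_norm (θ : ℝ) : ‖cis θ‖ = 1 := Complex.norm_exp_ofReal_mul_I θ

theorem cis_cont : Continuous cis := by
  unfold cis
  fun_prop

theorem cis_add (a b : ℝ) : cis (a + b) = cis a * cis b := by
  unfold cis
  rw [← Complex.exp_add]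
  push_cast
  ring_nf

theorem cis_two_pi : cis (2 * Real.pi) = 1 := by
  unfold cis
  push_cast
  exact Complex.exp_two_pi_mul_I

theorem cis_period (θ : ℝ) : cis (θ + 2 * Real.pi) = cis θ := by
  rw [cis_add, cis_two_pi, mul_one]

theorem real_key (w w' q s a b : ℝ) (hab : a ^ 2 + b ^ 2 = 1) (hw : 0 < w) (hw' : 0 < w')
    (h : w' ≤ w / 2000) (hq : |q| ≤ 1 / 16) (hs0 : 0 ≤ s) (hs1 : s ≤ 1) :
    w' ^ 2 / 50 < (w * (1 - s) * (1 / 2 - q * a) + w' * s * a / 2) ^ 2 -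
      (w * (1 - s) * q * b + w' * s * b / 2) ^ 2 + w ^ 2 * s / 200 := by
  have ha : |a| ≤ 1 := abs_le_one_iff_mul_self_le_one.2 (by nlinarith [sq_nonneg b])
  obtain ⟨q1, q2⟩ := abs_le.1 hq
  obtain ⟨a1, a2⟩ := abs_le.1 ha
  have hq2 : q ^ 2 ≤ 1 / 256 := by nlinarith
  have hqa : q * a ≤ 1 / 16 := by
    have : |q * a| ≤ 1 / 16 * 1 := by
      rw [abs_mul]
      exact mul_le_mul hq ha (abs_nonneg _) (by norm_num)
    linarith [le_abs_self (q * a)]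
  have h1 : 0.18 ≤ (1 / 2 - q * a) ^ 2 - q ^ 2 * b ^ 2 := by
    have e1 : (1 / 2 - q * a) ^ 2 - q ^ 2 * b ^ 2 = 1 / 4 - q * a + q ^ 2 * (2 * a ^ 2 - 1) := by
      have : b ^ 2 = 1 - a ^ 2 := by linarith
      rw [this]
      ring
    rw [e1]
    nlinarith [mul_nonneg (sq_nonneg q) (sq_nonneg a)]
  have h2 : -(9 / 16) ≤ (1 / 2 - q * a) * a - q * b ^ 2 := by
    have e1 : (1 / 2 - q * a) * a - q * b ^ 2 = a / 2 - q := by
      have : b ^ 2 = 1 - a ^ 2 := by linarith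
      rw [this]
      ring
    rw [e1]
    linarith
  have h3 : -1 ≤ a ^ 2 - b ^ 2 := by nlinarith [sq_nonneg a]
  set P := w * (1 - s) with hP
  have hP0 : 0 ≤ P := mul_nonneg hw.le (by linarith)
  have hP1 : P ≤ w := by nlinarith
  have e : (P * (1 / 2 - q * a) + w' * s * a / 2) ^ 2 - (P * q * b + w' * s * b / 2) ^ 2 + w ^ 2 * s / 200 =
      P ^ 2 * ((1 / 2 - q * a) ^ 2 - q ^ 2 * b ^ 2) + P * w' * s * ((1 / 2 - q * a) * a - q * b ^ 2) +
        w' ^ 2 * s ^ 2 / 4 * (a ^ 2 - b ^ 2) + w ^ 2 * s / 200 := by ring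
  rw [e]
  have b1 : P ^ 2 * 0.18 ≤ P ^ 2 * ((1 / 2 - q * a) ^ 2 - q ^ 2 * b ^ 2) :=
    mul_le_mul_of_nonneg_left h1 (sq_nonneg _)
  have b2 : P * w' * s * (-(9 / 16)) ≤ P * w' * s * ((1 / 2 - q * a) * a - q * b ^ 2) :=
    mul_le_mul_of_nonneg_left h2 (by positivity)
  have b3 : w' ^ 2 * s ^ 2 / 4 * (-1) ≤ w' ^ 2 * s ^ 2 / 4 * (a ^ 2 - b ^ 2) :=
    mul_le_mul_of_nonneg_left h3 (by positivity)
  have c0 : P * w' ≤ w * (w / 2000) := mul_le_mul hP1 h hw'.le hw.le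
  have c1 : P * w' * s ≤ w * (w / 2000) * s := mul_le_mul_of_nonneg_right c0 hs0
  have c2 : w' ^ 2 ≤ (w / 2000) ^ 2 := pow_le_pow_left₀ hw'.le h 2
  have c3 : s ^ 2 ≤ s := by nlinarith
  have c4 : w' ^ 2 * s ^ 2 ≤ (w / 2000) ^ 2 * s := mul_le_mul c2 c3 (sq_nonneg _) (sq_nonneg _)
  have hw2 : 0 < w ^ 2 := by positivity
  have c5 : w ^ 2 * 0.004 ≤ w ^ 2 * (0.18 * (1 - s) ^ 2 + 0.0047 * s) :=
    mul_le_mul_of_nonneg_left (by nlinarith [sq_nonneg (1 - s - 0.01)]) hw2.le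
  have e2 : P ^ 2 * 0.18 = w ^ 2 * (0.18 * (1 - s) ^ 2) := by
    rw [hP]
    ring
  have hs2 : 0 ≤ w ^ 2 * s := by positivity
  nlinarith

theorem key (w w' q s : ℝ) (u : ℂ) (hu : ‖u‖ = 1) (hw : 0 < w) (hw' : 0 < w')
    (h : w' ≤ w / 2000) (hq : |q| ≤ 1 / 16) (hs0 : 0 ≤ s) (hs1 : s ≤ 1) :
    w' ^ 2 / 50 < ‖((w : ℂ) * ((1 - s) * (u / 2 - q)) + w' * (s * u ^ 2 / 2)) ^ 2 +
      ((w ^ 2 / 100 : ℝ) : ℂ) * (s * u ^ 2 / 2)‖ := by
  set v : ℂ := (starRingEnd ℂ) u with hv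
  have huv : u * v = 1 := by
    rw [hv, Complex.mul_conj, Complex.normSq_eq_norm_sq, hu]
    norm_num
  have hvn : ‖v‖ = 1 := by rw [hv, Complex.norm_conj, hu]
  set X : ℂ := ((w : ℂ) * ((1 - s) * (u / 2 - q)) + w' * (s * u ^ 2 / 2)) ^ 2 +
      ((w ^ 2 / 100 : ℝ) : ℂ) * (s * u ^ 2 / 2) with hX
  have h1 : ‖X‖ = ‖X * v ^ 2‖ := by rw [norm_mul, norm_pow, hvn, one_pow, mul_one]
  have h2 : X * v ^ 2 = ((w : ℂ) * (1 - s) * (1 / 2 - q * v) + w' * s * u / 2) ^ 2 + (w : ℂ) ^ 2 * s / 200 := by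
    have e1 : X * v ^ 2 = ((w : ℂ) * (1 - s) * ((u * v) / 2 - q * v) + w' * s * (u * (u * v)) / 2) ^ 2 +
        (w : ℂ) ^ 2 * s * (u * v) ^ 2 / 200 := by
      rw [hX]
      push_cast
      ring
    rw [e1, huv]
    ring
  have hur : u.re = v.re := by simp [hv]
  have hui : u.im = -v.im := by simp [hv]
  have hab : v.re ^ 2 + v.im ^ 2 = 1 := by
    have := Complex.sq_norm v
    rw [hvn, Complex.normSq_apply] at this
    linarith
  rw [h1]
  refine lt_of_lt_of_le ?_ (Complex.re_le_norm _)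
  have h3 : (X * v ^ 2).re = (w * (1 - s) * (1 / 2 - q * v.re) + w' * s * v.re / 2) ^ 2 -
      (w * (1 - s) * q * v.im + w' * s * v.im / 2) ^ 2 + w ^ 2 * s / 200 := by
    rw [h2]
    have e3 : ((w : ℂ) * (1 - s) * (1 / 2 - q * v) + w' * s * u / 2) =
        ((w * (1 - s) * (1 / 2 - q * v.re) + w' * s * v.re / 2 : ℝ) : ℂ) +
        ((-(w * (1 - s) * q * v.im + w' * s * v.im / 2) : ℝ) : ℂ) * Complex.I := by
      apply Complex.ext
      · simp [hur]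
      · simp [hui]
        ring
    rw [e3]
    have e4 : (w : ℂ) ^ 2 * s / 200 = ((w ^ 2 * s / 200 : ℝ) : ℂ) := by push_cast; ring
    rw [e4, Complex.add_re, Complex.ofReal_re, sq, Complex.mul_re]
    simp
    ring
  rw [h3]
  exact real_key w w' q s v.re v.im hab hw hw' h hq hs0 hs1

theorem sv_cont {X : Type} [TopologicalSpace X] {n : ℕ} (k : ℕ) (z ζ : X → ℂ) (hz : Continuous z)
    (hζ : Continuous ζ) (i : Fin n) : Continuous fun q => sv k (z q) (ζ q) i := by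
  unfold sv
  split_ifs
  · exact continuous_const
  · exact hz
  · exact hζ
  · exact continuous_const

theorem ap_cont {X : Type} [TopologicalSpace X] {p : ℕ} [Fact p.Prime] {N : ℕ → ℕ} {n : ℕ}
    (x : H p N n → ℂ) (d : (i : Fin n) → V p (N i) → ℕ) (χ : H p N n → ℂ) (k : ℕ) (z ζ : X → ℂ)
    (hz : Continuous z) (hζ : Continuous ζ) : Continuous fun q => ap x (Ph d χ (sv k (z q) (ζ q))) := by
  unfold ap Ph
  refine continuous_finsetSum _ fun g _ => continuous_const.mul (continuous_const.mul ?_)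
  exact continuous_finsetProd _ fun i _ => (sv_cont k z ζ hz hζ i).pow _

/-- **LAST** -/
theorem t_LAST : S_TOP → S_NUM → S_LOW → S_LAST := by
  rintro ⟨-, hT2, hT3, -⟩ hN hL p _ N l x y d m hNp hD hF ⟨χ, hχ, ⟨r, hr, hr2⟩, hW⟩
  have hp : (2 : ℝ) ≤ p := by exact_mod_cast (Fact.out : p.Prime).two_le
  obtain ⟨n1, -⟩ := hN p
  obtain ⟨w0, -, w1⟩ := n1 l
  obtain ⟨w2, -, -⟩ := n1 (l + 1)
  set q : ℝ := -r / w p l with hq
  have hq1 : |q| ≤ 1 / 16 := by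
    rw [hq, abs_div, abs_neg, abs_of_pos w0, div_le_iff₀ w0]
    refine hr2.trans ?_
    rw [div_le_iff₀ (by positivity)]
    nlinarith
  have hrq : (r : ℂ) = -((w p l : ℂ) * q) := by
    rw [hq]
    push_cast
    have : (w p l : ℂ) ≠ 0 := by exact_mod_cast w0.ne'
    field_simp
  let z : ℝ × ℝ → ℂ := fun t => (1 - t.1) * cis t.2 / 2 + t.1 * q
  let ζ : ℝ × ℝ → ℂ := fun t => t.1 * cis (2 * t.2) / 2
  have hz : Continuous z := by
    have := cis_cont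
    fun_prop
  have hζ : Continuous ζ := by
    have := cis_cont
    fun_prop
  let F : ℝ → ℝ → ℂ := fun s θ => ap x (Ph d χ (sv l (z (s, θ)) (ζ (s, θ))))
  have hcis2 : ∀ θ : ℝ, cis (2 * θ) = cis θ ^ 2 := fun θ => by rw [two_mul, cis_add, sq]
  have hFne : ∀ s, 0 ≤ s → s ≤ 1 → ∀ θ, F s θ ≠ 0 := by
    intro s hs0 hs1 θ h0
    have hzn : ‖z (s, θ)‖ ≤ 1 / 2 := by
      have e1 : ‖z (s, θ)‖ ≤ ‖(1 - (s : ℂ)) * cis θ / 2‖ + ‖(s : ℂ) * q‖ := norm_add_le _ _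
      have e2 : ‖(1 - (s : ℂ)) * cis θ / 2‖ = (1 - s) / 2 := by
        rw [norm_div, norm_mul, cis_norm, mul_one, ← Complex.ofReal_one, ← Complex.ofReal_sub,
          Complex.norm_real, Real.norm_of_nonneg (by linarith)]
        norm_num
      have e3 : ‖(s : ℂ) * q‖ ≤ s * (1 / 16) := by
        rw [norm_mul, Complex.norm_real, Complex.norm_real, Real.norm_of_nonneg hs0]
        exact mul_le_mul_of_nonneg_left hq1 hs0
      rw [e2] at e1
      linarith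
    have hζn : ‖ζ (s, θ)‖ ≤ 1 / 2 := by
      have e2 : ‖ζ (s, θ)‖ = s / 2 := by
        simp only [ζ]
        rw [norm_div, norm_mul, cis_norm, mul_one, Complex.norm_real, Real.norm_of_nonneg hs0]
        norm_num
      rw [e2]
      linarith
    have h1 := hL p N l x y d m hNp hD hF l χ le_rfl hχ (z (s, θ)) (ζ (s, θ)) hzn hζn
    rw [if_pos rfl] at h1
    have h2 : ap x (Ph d χ (sv l (z (s, θ)) (ζ (s, θ)))) = 0 := h0
    rw [h2, zero_mul, zero_sub, norm_neg, hr] at h1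
    have h3 := key (w p l) (w p (l + 1)) q s (cis θ) (cis_norm θ) w0 w2 w1 hq1 hs0 hs1
    have h4 : ((w p l : ℂ) * ((1 - s) * (cis θ / 2 - q)) + w p (l + 1) * (s * cis θ ^ 2 / 2)) ^ 2 +
        ((w p l ^ 2 / 100 : ℝ) : ℂ) * (s * cis θ ^ 2 / 2) =
        ((r : ℂ) + w p l * z (s, θ) + w p (l + 1) * ζ (s, θ)) ^ 2 +
          ((w p l ^ 2 / 100 : ℝ) : ℂ) * ζ (s, θ) := by
      simp only [z, ζ]
      rw [hcis2, hrq]
      ring
    rw [h4] at h3
    exact absurd h1 (not_le.2 h3)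
  have h1 : Wd (F 1) := by
    refine hT2 F (ap_cont x d χ l z ζ hz hζ) ?_ hFne ?_
    · intro s θ
      have e1 : z (s, θ + 2 * Real.pi) = z (s, θ) := by simp only [z, cis_period]
      have e2 : ζ (s, θ + 2 * Real.pi) = ζ (s, θ) := by simp only [ζ, hcis2, cis_period]
      simp only [F, e1, e2]
    · have e : F 0 = fun θ => ap x (Ph d χ (sv l (cis θ / 2) 0)) := by
        funext θ
        have e1 : z (0, θ) = cis θ / 2 := by simp [z]
        have e2 : ζ (0, θ) = 0 := by simp [ζ]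
        simp only [F, e1, e2]
      rw [e]
      exact hW
  refine hT3 (F 1) h1 fun θ => ?_
  have e1 : z (1, θ + Real.pi) = z (1, θ) := by simp [z]
  have e2 : ζ (1, θ + Real.pi) = ζ (1, θ) := by
    simp only [ζ]
    rw [mul_add, cis_period]
  simp only [F, e1, e2]

end Pool.Agent.D0H10.OP
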